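import Pool.Agent.H33.HH.TC
import Pool.Agent.H46.HH.NRM

/-!
# PSB: the transition function
-/

set_option autoImplicit false

open NumberField Complex Filter Topology MeasureTheory
open scoped ContDiff

namespace Pool.Agent.H4.HH

open Pool.Agent.H33.HH Pool.Agent.H28.RC Pool.Agent.H37.CV

/-! ### Integrals over the plane -/

lemma psb_radial {f : ℝ → ℝ} (hf : IntegrableOn (fun y => y * f y) (Set.Ioi 0)) :
    Integrable (fun z : ℂ => f ‖z‖) := by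
  have h := integrable_fun_norm_addHaar (volume : Measure ℂ) (f := f)
  rw [Complex.finrank_real_complex] at h
  exact h.2 (by simpa using hf)

lemma psb_base : IntegrableOn (fun y : ℝ => 1 / (1 + y ^ 2) ^ 3) (Set.Ioi 0) := by
  have h : Integrable (fun y : ℝ => (1 + y ^ 2)⁻¹) := integrable_inv_one_add_sq
  refine (h.integrableOn).mono' ?_ ?_
  · refine Continuous.aestronglyMeasurable ?_
    refine continuous_const.div (by fun_prop) (fun y => by positivity)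
  · refine Filter.Eventually.of_forall fun y => ?_
    rw [Real.norm_of_nonneg (by positivity), one_div]
    refine inv_anti₀ (by positivity) ?_
    nlinarith [sq_nonneg y, sq_nonneg (y ^ 2), sq_nonneg (y ^ 3)]

/-- `|z|^(-1) (1+|z|^2)^(-3)` -/
noncomputable def psb1 (z : ℂ) : ℝ := ‖z‖⁻¹ * (1 / (1 + ‖z‖ ^ 2) ^ 3)

/-- `|z| (1+|z|^2)^(-3)` -/
noncomputable def psb2 (z : ℂ) : ℝ := ‖z‖ * (1 / (1 + ‖z‖ ^ 2) ^ 3)

lemma psb1_int : Integrable psb1 := by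
  refine psb_radial (f := fun y => y⁻¹ * (1 / (1 + y ^ 2) ^ 3)) ?_
  refine psb_base.congr_fun (fun y hy => ?_) measurableSet_Ioi
  have : (y : ℝ) ≠ 0 := (Set.mem_Ioi.1 hy).ne'
  field_simp

lemma psb2_int : Integrable psb2 := by
  refine psb_radial (f := fun y => y * (1 / (1 + y ^ 2) ^ 3)) ?_
  have h : Integrable (fun y : ℝ => (1 + y ^ 2)⁻¹) := integrable_inv_one_add_sq
  refine (h.integrableOn).mono' ?_ ?_
  · refine Continuous.aestronglyMeasurable ?_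
    refine continuous_id.mul (continuous_id.mul
      (continuous_const.div (by fun_prop) (fun y => by positivity)))
  · refine Filter.Eventually.of_forall fun y => ?_
    have hp : 0 < 1 + y ^ 2 := by positivity
    have e : y * (y * (1 / (1 + y ^ 2) ^ 3)) = (1 + y ^ 2)⁻¹ * (y ^ 2 / (1 + y ^ 2) ^ 2) := by
      field_simp
    rw [e, Real.norm_of_nonneg (by positivity)]
    refine mul_le_of_le_one_right (by positivity) ?_
    rw [div_le_one (by positivity)]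
    nlinarith [sq_nonneg y, sq_nonneg (y ^ 2)]

/-- the kernel -/
noncomputable def psbk (x : ℝ) (z : ℂ) : ℝ := 1 / (1 + ‖z‖ ^ 2 * x) ^ 3

lemma psbk_nonneg {x : ℝ} (hx : 0 < x) (z : ℂ) : 0 ≤ psbk x z := by
  unfold psbk; positivity

lemma psb1_scale {s : ℝ} (hs : 0 < s) (z : ℂ) :
    ‖z‖⁻¹ * psbk (s ^ 2) z = s * psb1 (s • z) := by
  unfold psbk psb1
  rw [norm_smul, Real.norm_of_nonneg hs.le, mul_inv]
  have e : 1 + (s * ‖z‖) ^ 2 = 1 + ‖z‖ ^ 2 * s ^ 2 := by ring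
  rw [e]
  have : s ≠ 0 := hs.ne'
  rw [← mul_assoc, ← mul_assoc, mul_inv_cancel₀ this, one_mul]

lemma psb2_scale {s : ℝ} (hs : 0 < s) (z : ℂ) :
    ‖z‖ * psbk (s ^ 2) z = s⁻¹ * psb2 (s • z) := by
  unfold psbk psb2
  rw [norm_smul, Real.norm_of_nonneg hs.le]
  have e : 1 + (s * ‖z‖) ^ 2 = 1 + ‖z‖ ^ 2 * s ^ 2 := by ring
  rw [e]
  have : s ≠ 0 := hs.ne'
  rw [← mul_assoc, ← mul_assoc, inv_mul_cancel₀ this, one_mul]

lemma psb1_sint {s : ℝ} (hs : 0 < s) : Integrable (fun z : ℂ => ‖z‖⁻¹ * psbk (s ^ 2) z) := by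
  simp_rw [psb1_scale hs]
  exact (psb1_int.comp_smul hs.ne').const_mul s

lemma psb2_sint {s : ℝ} (hs : 0 < s) : Integrable (fun z : ℂ => ‖z‖ * psbk (s ^ 2) z) := by
  simp_rw [psb2_scale hs]
  exact (psb2_int.comp_smul hs.ne').const_mul _

lemma psb_smul {s : ℝ} (hs : 0 < s) (f : ℂ → ℝ) : ∫ z : ℂ, f (s • z) = (s ^ 2)⁻¹ * ∫ z, f z := by
  have h := Measure.integral_comp_smul (volume : Measure ℂ) f s
  rw [Complex.finrank_real_complex, abs_of_nonneg (by positivity)] at h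
  simpa using h

lemma psb1_val {s : ℝ} (hs : 0 < s) :
    ∫ z : ℂ, ‖z‖⁻¹ * psbk (s ^ 2) z = s⁻¹ * ∫ z, psb1 z := by
  simp_rw [psb1_scale hs]
  rw [integral_const_mul, psb_smul hs, ← mul_assoc]
  congr 1
  field_simp

lemma psb2_val {s : ℝ} (hs : 0 < s) :
    ∫ z : ℂ, ‖z‖ * psbk (s ^ 2) z = (s ^ 3)⁻¹ * ∫ z, psb2 z := by
  simp_rw [psb2_scale hs]
  rw [integral_const_mul, psb_smul hs, ← mul_assoc]
  congr 1
  field_simp

lemma psbk_cont (x : ℝ) (hx : 0 < x) : Continuous (psbk x) := by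
  unfold psbk
  exact continuous_const.div (by fun_prop) (fun z => by positivity)

lemma psbk_int {x : ℝ} (hx : 0 < x) : Integrable (psbk x) := by
  have hs : 0 < Real.sqrt x := Real.sqrt_pos.2 hx
  have h1 := psb1_sint hs
  have h2 := psb2_sint hs
  rw [Real.sq_sqrt hx.le] at h1 h2
  refine (h1.add h2).mono' (psbk_cont x hx).aestronglyMeasurable ?_
  have h0 : ∀ᵐ z : ℂ, z ≠ 0 := by
    have : (volume : Measure ℂ) {0} = 0 := measure_singleton 0
    exact compl_mem_ae_iff.2 this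
  filter_upwards [h0] with z hz
  have hz' : 0 < ‖z‖ := norm_pos_iff.2 hz
  rw [Real.norm_of_nonneg (psbk_nonneg hx z)]
  show psbk x z ≤ ‖z‖⁻¹ * psbk x z + ‖z‖ * psbk x z
  rw [← add_mul]
  refine le_mul_of_one_le_left (psbk_nonneg hx z) ?_
  rcases le_or_gt ‖z‖ 1 with h | h
  · have : 1 ≤ ‖z‖⁻¹ := one_le_inv_iff₀.2 ⟨hz', h⟩
    linarith
  · have : 0 < ‖z‖⁻¹ := inv_pos.2 hz'
    linarith

/-- the integral of a radial function -/
lemma psb_polar (ρ : ℝ → ℝ) {x : ℝ} (hx : 0 < x) :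
    ∫ z : ℂ, ρ (‖z‖ ^ 2 * x) = Real.pi / x * ∫ u in Set.Ioi (0 : ℝ), ρ u := by
  have h := integral_fun_norm_addHaar (volume : Measure ℂ) (fun y => ρ (y ^ 2 * x))
  rw [Complex.finrank_real_complex] at h
  have hb : (volume : Measure ℂ).real (Metric.ball 0 1) = Real.pi := by
    rw [Measure.real, Complex.volume_ball]
    simp
  rw [hb] at h
  rw [h]
  have h1 := integral_comp_rpow_Ioi_of_pos (g := fun u => ρ (u * x)) (p := 2) (by norm_num)
  have h2 := integral_comp_mul_right_Ioi ρ 0 hx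
  rw [zero_mul] at h2
  rw [h2] at h1
  have h3 : ∫ y in Set.Ioi (0 : ℝ), (2 * y ^ ((2 : ℝ) - 1)) • ρ (y ^ (2 : ℝ) * x) =
      2 * ∫ y in Set.Ioi (0 : ℝ), y ^ (2 - 1) • ρ (y ^ 2 * x) := by
    rw [← integral_const_mul]
    refine setIntegral_congr_fun measurableSet_Ioi (fun y hy => ?_)
    have e1 : y ^ ((2 : ℝ) - 1) = y := by norm_num
    have e2 : y ^ (2 : ℝ) = y ^ 2 := by norm_cast
    show (2 * y ^ ((2 : ℝ) - 1)) • ρ (y ^ (2 : ℝ) * x) = 2 * (y ^ (2 - 1) • ρ (y ^ 2 * x))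
    rw [e1, e2]
    simp only [smul_eq_mul]
    ring
  rw [h3] at h1
  simp only [smul_eq_mul, nsmul_eq_mul] at h1 ⊢
  have : (↑(2 : ℕ) : ℝ) = 2 := by norm_num
  rw [this]
  calc 2 * (Real.pi * ∫ y in Set.Ioi (0 : ℝ), y ^ (2 - 1) * ρ (y ^ 2 * x)) =
      Real.pi * (2 * ∫ y in Set.Ioi (0 : ℝ), y ^ (2 - 1) * ρ (y ^ 2 * x)) := by ring
    _ = Real.pi * (x⁻¹ * ∫ u in Set.Ioi (0 : ℝ), ρ u) := by rw [h1]
    _ = _ := by rw [div_eq_mul_inv]; ring

/-! ### The cutoff -/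

lemma psb_H {H : ℝ → ℝ} (hH : IsH H) : ∃ M : ℝ, 0 ≤ M ∧ (∀ u, 0 ≤ u → |H u| ≤ M) ∧
    (∀ g : ℂ, |H (‖g‖ ^ 2)| * ‖g - 1‖ ≤ M) ∧ ∀ g : ℂ, |H (‖g‖ ^ 2) - 1 / 2| ≤ M * ‖g - 1‖ := by
  have hc : Continuous H := hH.smooth.continuous
  obtain ⟨M₀, hM₀⟩ := (isCompact_Icc (a := (0 : ℝ)) (b := 4)).exists_bound_of_continuousOn
    hc.continuousOn
  obtain ⟨L₀, hL₀⟩ := (isCompact_Icc (a := (0 : ℝ)) (b := 4)).exists_bound_of_continuousOn
    (hH.smooth.continuous_deriv (by simp)).continuousOn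
  have hM0 : 0 ≤ M₀ := (norm_nonneg _).trans (hM₀ 0 (by norm_num))
  have hL0 : 0 ≤ L₀ := (norm_nonneg _).trans (hL₀ 0 (by norm_num))
  have h2 : ∀ x : ℝ, 0 < x → 2 ≤ x ^ 2 → H (x ^ 2) = x⁻¹ := by
    intro x hx h
    rw [hH.high _ h, ← Real.rpow_natCast, ← Real.rpow_mul hx.le]
    norm_num
    rw [Real.rpow_neg_one]
  have hbd : ∀ u, 0 ≤ u → |H u| ≤ M₀ + 1 := by
    intro u hu
    rcases le_or_gt u 4 with h | h
    · exact (hM₀ u ⟨hu, h⟩).trans (by linarith)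
    · have e : u = (Real.sqrt u) ^ 2 := (Real.sq_sqrt hu).symm
      have hs : 2 < Real.sqrt u := by
        rw [Real.lt_sqrt (by norm_num)]; linarith
      rw [e, h2 _ (by linarith) (by nlinarith), abs_of_nonneg (inv_nonneg.2 (by linarith))]
      have : (Real.sqrt u)⁻¹ ≤ 1 := inv_le_one_of_one_le₀ (by linarith)
      linarith
  have h1 : H 1 = 1 / 2 := by
    have := hH.sym 1 one_pos
    simp at this
    linarith
  have hnb : ∀ g : ℂ, |H (‖g‖ ^ 2)| * ‖g‖ ≤ 2 * (M₀ + 1) := by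
    intro g
    rcases le_or_gt ‖g‖ 2 with h | h
    · have := hbd (‖g‖ ^ 2) (by positivity)
      have hg := norm_nonneg g
      have h0 := abs_nonneg (H (‖g‖ ^ 2))
      nlinarith
    · rw [h2 _ (by linarith) (by nlinarith), abs_of_nonneg (inv_nonneg.2 (by linarith)),
        inv_mul_cancel₀ (by linarith)]
      linarith
  refine ⟨3 * (M₀ + 1) + 3 * L₀, by positivity, fun u hu => (hbd u hu).trans (by linarith),
    fun g => ?_, fun g => ?_⟩
  · have a1 : ‖g - 1‖ ≤ ‖g‖ + 1 := by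
      have := norm_sub_le g 1
      simpa using this
    calc |H (‖g‖ ^ 2)| * ‖g - 1‖ ≤ |H (‖g‖ ^ 2)| * (‖g‖ + 1) := by gcongr
      _ = |H (‖g‖ ^ 2)| * ‖g‖ + |H (‖g‖ ^ 2)| := by ring
      _ ≤ 2 * (M₀ + 1) + (M₀ + 1) := add_le_add (hnb g) (hbd _ (by positivity))
      _ ≤ _ := by linarith
  · rcases le_or_gt ‖g - 1‖ 1 with h | h
    · have a1 : |‖g‖ - 1| ≤ ‖g - 1‖ := by
        have := abs_norm_sub_norm_le g 1
        simpa using this
      have a2 : ‖g‖ ≤ 2 := by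
        have := (abs_le.1 a1).2
        linarith
      have a3 : |‖g‖ ^ 2 - 1| ≤ 3 * ‖g - 1‖ := by
        have e : ‖g‖ ^ 2 - 1 = (‖g‖ - 1) * (‖g‖ + 1) := by ring
        have hg := norm_nonneg g
        rw [e, abs_mul, abs_of_nonneg (show 0 ≤ ‖g‖ + 1 by linarith)]
        calc |‖g‖ - 1| * (‖g‖ + 1) ≤ ‖g - 1‖ * 3 := by gcongr; linarith
          _ = _ := by ring
      have a4 : ‖H (‖g‖ ^ 2) - H 1‖ ≤ L₀ * ‖‖g‖ ^ 2 - 1‖ := by
        refine Convex.norm_image_sub_le_of_norm_deriv_le (s := Set.Icc (0 : ℝ) 4)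
          (fun x _ => (hH.smooth.differentiable (by simp)).differentiableAt) hL₀
          (convex_Icc 0 4) (by norm_num) ⟨by positivity, by nlinarith [norm_nonneg g]⟩
      rw [h1, Real.norm_eq_abs, Real.norm_eq_abs] at a4
      calc |H (‖g‖ ^ 2) - 1 / 2| ≤ L₀ * |‖g‖ ^ 2 - 1| := a4
        _ ≤ L₀ * (3 * ‖g - 1‖) := by gcongr
        _ ≤ _ := by nlinarith [norm_nonneg (g - 1)]
    · have a1 : |H (‖g‖ ^ 2) - 1 / 2| ≤ |H (‖g‖ ^ 2)| + |1 / 2| := abs_sub _ _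
      have a2 := hbd (‖g‖ ^ 2) (by positivity)
      rw [abs_of_pos (show (0 : ℝ) < 1 / 2 by norm_num)] at a1
      calc |H (‖g‖ ^ 2) - 1 / 2| ≤ (M₀ + 1) + 1 / 2 := by linarith
        _ ≤ (3 * (M₀ + 1) + 3 * L₀) * 1 := by linarith
        _ ≤ _ := by gcongr

/-! ### The integral with the cutoff -/

/-- the integral with the cutoff -/
noncomputable def Ip (H ρ : ℝ → ℝ) (x : ℝ) : ℝ := ∫ g : ℂ, H (‖g‖ ^ 2) * ρ (‖g - 1‖ ^ 2 * x)

section Ip

variable {H ρ : ℝ → ℝ} {C : ℝ}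

lemma psb_rho (hb : ∀ y, 0 ≤ y → |ρ y| ≤ C / (1 + y) ^ 3) {x : ℝ} (hx : 0 < x) (g : ℂ) :
    |ρ (‖g - 1‖ ^ 2 * x)| ≤ C * psbk x (g - 1) := by
  have := hb (‖g - 1‖ ^ 2 * x) (by positivity)
  unfold psbk
  rw [mul_one_div]
  exact this

lemma psb_int_rho (hρ : Continuous ρ) (hb : ∀ y, 0 ≤ y → |ρ y| ≤ C / (1 + y) ^ 3) {x : ℝ}
    (hx : 0 < x) : Integrable (fun g : ℂ => ρ (‖g - 1‖ ^ 2 * x)) := by
  refine (((psbk_int hx).comp_sub_right 1).const_mul C).mono'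
    (hρ.comp (by fun_prop)).aestronglyMeasurable ?_
  exact Filter.Eventually.of_forall fun g => psb_rho hb hx g

lemma psb_int_H (hH : IsH H) (hρ : Continuous ρ) (hb : ∀ y, 0 ≤ y → |ρ y| ≤ C / (1 + y) ^ 3)
    {x : ℝ} (hx : 0 < x) : Integrable (fun g : ℂ => H (‖g‖ ^ 2) * ρ (‖g - 1‖ ^ 2 * x)) := by
  obtain ⟨M, hM, h1, -, -⟩ := psb_H hH
  refine (psb_int_rho hρ hb hx).bdd_mul (c := M)
    (hH.smooth.continuous.comp (by fun_prop)).aestronglyMeasurable ?_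
  exact Filter.Eventually.of_forall fun g => h1 _ (by positivity)

lemma psb_Ip (hH : IsH H) (hρ : Continuous ρ) (hb : ∀ y, 0 ≤ y → |ρ y| ≤ C / (1 + y) ^ 3) :
    ∃ B : ℝ, 0 ≤ B ∧ ∀ s : ℝ, 0 < s → |Ip H ρ (s ^ 2)| ≤ B * s⁻¹ ∧
      |Ip H ρ (s ^ 2) - 1 / 2 * (Real.pi / s ^ 2 * ∫ u in Set.Ioi (0 : ℝ), ρ u)| ≤
        B * (s ^ 3)⁻¹ := by
  obtain ⟨M, hM, h1, h2, h3⟩ := psb_H hH
  have hC : 0 ≤ C := by
    have := (abs_nonneg _).trans (hb 0 le_rfl)
    simpa using this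
  set J₁ : ℝ := ∫ z, psb1 z with hJ₁
  set J₂ : ℝ := ∫ z, psb2 z with hJ₂
  have hJ1 : 0 ≤ J₁ := integral_nonneg fun z => by unfold psb1; positivity
  have hJ2 : 0 ≤ J₂ := integral_nonneg fun z => by unfold psb2; positivity
  refine ⟨M * C * (J₁ + J₂), by positivity, fun s hs => ?_⟩
  have hs2 : 0 < s ^ 2 := by positivity
  constructor
  · have hae : ∀ᵐ g : ℂ, ‖H (‖g‖ ^ 2) * ρ (‖g - 1‖ ^ 2 * s ^ 2)‖ ≤
        M * C * (‖g - 1‖⁻¹ * psbk (s ^ 2) (g - 1)) := by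
      have h0 : ∀ᵐ z : ℂ, z ≠ 1 := by
        have : (volume : Measure ℂ) {1} = 0 := measure_singleton 1
        exact compl_mem_ae_iff.2 this
      filter_upwards [h0] with g hg
      have hg' : 0 < ‖g - 1‖ := norm_pos_iff.2 (sub_ne_zero.2 hg)
      have a1 : |H (‖g‖ ^ 2)| ≤ M * ‖g - 1‖⁻¹ := by
        rw [← div_eq_mul_inv, le_div_iff₀ hg']
        exact h2 g
      rw [norm_mul, Real.norm_eq_abs, Real.norm_eq_abs]
      calc |H (‖g‖ ^ 2)| * |ρ (‖g - 1‖ ^ 2 * s ^ 2)| ≤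
          (M * ‖g - 1‖⁻¹) * (C * psbk (s ^ 2) (g - 1)) :=
            mul_le_mul a1 (psb_rho hb hs2 g) (abs_nonneg _) (by positivity)
        _ = _ := by ring
    have hint := ((psb1_sint hs).comp_sub_right 1).const_mul (M * C)
    have h := norm_integral_le_of_norm_le hint hae
    rw [integral_const_mul, integral_sub_right_eq_self
      (fun g : ℂ => ‖g‖⁻¹ * psbk (s ^ 2) g) 1, psb1_val hs, Real.norm_eq_abs] at h
    refine h.trans ?_
    have : 0 ≤ s⁻¹ := inv_nonneg.2 hs.le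
    calc M * C * (s⁻¹ * J₁) = M * C * J₁ * s⁻¹ := by ring
      _ ≤ _ := by gcongr; linarith
  · have e1 : Real.pi / s ^ 2 * ∫ u in Set.Ioi (0 : ℝ), ρ u =
        ∫ g : ℂ, ρ (‖g - 1‖ ^ 2 * s ^ 2) := by
      rw [← psb_polar ρ hs2, integral_sub_right_eq_self (fun g : ℂ => ρ (‖g‖ ^ 2 * s ^ 2)) 1]
    have e2 : Ip H ρ (s ^ 2) - 1 / 2 * (Real.pi / s ^ 2 * ∫ u in Set.Ioi (0 : ℝ), ρ u) =
        ∫ g : ℂ, (H (‖g‖ ^ 2) - 1 / 2) * ρ (‖g - 1‖ ^ 2 * s ^ 2) := by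
      rw [e1]
      unfold Ip
      rw [← integral_const_mul, ← integral_sub (psb_int_H hH hρ hb hs2)
        ((psb_int_rho hρ hb hs2).const_mul _)]
      refine integral_congr_ae (Filter.Eventually.of_forall fun g => ?_)
      show H (‖g‖ ^ 2) * ρ (‖g - 1‖ ^ 2 * s ^ 2) - 1 / 2 * ρ (‖g - 1‖ ^ 2 * s ^ 2) = _
      ring
    rw [e2]
    have hae : ∀ᵐ g : ℂ, ‖(H (‖g‖ ^ 2) - 1 / 2) * ρ (‖g - 1‖ ^ 2 * s ^ 2)‖ ≤
        M * C * (‖g - 1‖ * psbk (s ^ 2) (g - 1)) := by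
      refine Filter.Eventually.of_forall fun g => ?_
      rw [norm_mul, Real.norm_eq_abs, Real.norm_eq_abs]
      calc |H (‖g‖ ^ 2) - 1 / 2| * |ρ (‖g - 1‖ ^ 2 * s ^ 2)| ≤
          (M * ‖g - 1‖) * (C * psbk (s ^ 2) (g - 1)) :=
            mul_le_mul (h3 g) (psb_rho hb hs2 g) (abs_nonneg _) (by positivity)
        _ = _ := by ring
    have hint := ((psb2_sint hs).comp_sub_right 1).const_mul (M * C)
    have h := norm_integral_le_of_norm_le hint hae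
    rw [integral_const_mul, integral_sub_right_eq_self
      (fun g : ℂ => ‖g‖ * psbk (s ^ 2) g) 1, psb2_val hs, Real.norm_eq_abs] at h
    refine h.trans ?_
    have : 0 ≤ (s ^ 3)⁻¹ := by positivity
    calc M * C * ((s ^ 3)⁻¹ * J₂) = M * C * J₂ * (s ^ 3)⁻¹ := by ring
      _ ≤ _ := by gcongr; linarith

/-- domination on a neighbourhood -/
lemma psb_dom (hH : IsH H) (hb : ∀ y, 0 ≤ y → |ρ y| ≤ C / (1 + y) ^ 3) {x₀ : ℝ} (hx₀ : 0 < x₀) :
    ∃ M : ℝ, 0 ≤ M ∧ ∀ g : ℂ, ∀ x, x₀ / 2 < x → |H (‖g‖ ^ 2) * ρ (‖g - 1‖ ^ 2 * x)| ≤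
      M * psbk (x₀ / 2) (g - 1) := by
  obtain ⟨M, hM, h1, -, -⟩ := psb_H hH
  have hC : 0 ≤ C := by
    have := (abs_nonneg _).trans (hb 0 le_rfl)
    simpa using this
  refine ⟨M * C, by positivity, fun g x hx => ?_⟩
  have hxp : 0 < x := by linarith
  have a1 : psbk x (g - 1) ≤ psbk (x₀ / 2) (g - 1) := by
    unfold psbk
    gcongr
  rw [abs_mul]
  calc |H (‖g‖ ^ 2)| * |ρ (‖g - 1‖ ^ 2 * x)| ≤ M * (C * psbk x (g - 1)) :=
        mul_le_mul (h1 _ (by positivity)) (psb_rho hb hxp g) (abs_nonneg _) hM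
    _ ≤ M * (C * psbk (x₀ / 2) (g - 1)) := by gcongr
    _ = _ := by ring

lemma psb_cont (hH : IsH H) (hρ : Continuous ρ) (hb : ∀ y, 0 ≤ y → |ρ y| ≤ C / (1 + y) ^ 3)
    {x₀ : ℝ} (hx₀ : 0 < x₀) : ContinuousAt (Ip H ρ) x₀ := by
  obtain ⟨M, hM, hd⟩ := psb_dom hH hb hx₀
  unfold Ip
  refine continuousAt_of_dominated (bound := fun g => M * psbk (x₀ / 2) (g - 1)) ?_ ?_ ?_ ?_
  · exact Filter.Eventually.of_forall fun x =>
      ((hH.smooth.continuous.comp (by fun_prop)).mul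
        (hρ.comp (by fun_prop))).aestronglyMeasurable
  · filter_upwards [lt_mem_nhds (show x₀ / 2 < x₀ by linarith)] with x hx
    exact Filter.Eventually.of_forall fun g => hd g x hx
  · exact ((psbk_int (half_pos hx₀)).comp_sub_right 1).const_mul M
  · exact Filter.Eventually.of_forall fun g =>
      (continuous_const.mul (hρ.comp (by fun_prop))).continuousAt

lemma psb_deriv (hH : IsH H) (hρ : ContDiff ℝ 1 ρ)
    (hb : ∀ y, 0 ≤ y → |ρ y| ≤ C / (1 + y) ^ 3)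
    (hb' : ∀ y, 0 ≤ y → |y * deriv ρ y| ≤ C / (1 + y) ^ 3) {x₀ : ℝ} (hx₀ : 0 < x₀) :
    HasDerivAt (Ip H ρ) (x₀⁻¹ * Ip H (fun y => y * deriv ρ y) x₀) x₀ := by
  have hdc : Continuous (deriv ρ) := hρ.continuous_deriv (by simp)
  have hρ2 : Continuous (fun y => y * deriv ρ y) := continuous_id.mul hdc
  obtain ⟨M, hM, hd⟩ := psb_dom hH hb' hx₀
  have key := hasDerivAt_integral_of_dominated_loc_of_deriv_le (μ := (volume : Measure ℂ))
    (F := fun x g => H (‖g‖ ^ 2) * ρ (‖g - 1‖ ^ 2 * x))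
    (F' := fun x g => x⁻¹ * (H (‖g‖ ^ 2) * (‖g - 1‖ ^ 2 * x * deriv ρ (‖g - 1‖ ^ 2 * x))))
    (x₀ := x₀) (s := Set.Ioi (x₀ / 2)) (bound := fun g => (x₀ / 2)⁻¹ * (M * psbk (x₀ / 2) (g - 1)))
    (Ioi_mem_nhds (by linarith)) ?_ ?_ ?_ ?_ ?_ ?_
  · have h2 := key.2
    rw [integral_const_mul] at h2
    exact h2
  · exact Filter.Eventually.of_forall fun x =>
      ((hH.smooth.continuous.comp (by fun_prop)).mul
        (hρ.continuous.comp (by fun_prop))).aestronglyMeasurable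
  · exact psb_int_H hH hρ.continuous hb hx₀
  · exact (continuous_const.mul ((hH.smooth.continuous.comp (by fun_prop)).mul
        (hρ2.comp (by fun_prop : Continuous fun g : ℂ => ‖g - 1‖ ^ 2 * x₀)))).aestronglyMeasurable
  · refine Filter.Eventually.of_forall fun g x hx => ?_
    have hx' : x₀ / 2 < x := hx
    have hxp : 0 < x := by linarith
    rw [norm_mul, Real.norm_of_nonneg (inv_nonneg.2 hxp.le), Real.norm_eq_abs]
    exact mul_le_mul (inv_anti₀ (half_pos hx₀) hx'.le) (hd g x hx') (abs_nonneg _) (by positivity)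
  · exact (((psbk_int (half_pos hx₀)).comp_sub_right 1).const_mul M).const_mul _
  · refine Filter.Eventually.of_forall fun g x hx => ?_
    have hx' : x₀ / 2 < x := hx
    have hxp : 0 < x := by linarith
    have h1 : HasDerivAt ρ (deriv ρ (‖g - 1‖ ^ 2 * x)) (‖g - 1‖ ^ 2 * x) :=
      ((hρ.differentiable (by simp)) _).hasDerivAt
    have h2 : HasDerivAt (fun x : ℝ => ‖g - 1‖ ^ 2 * x) (‖g - 1‖ ^ 2) x := by
      simpa using (hasDerivAt_id x).const_mul (‖g - 1‖ ^ 2)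
    have h3 := (h1.comp x h2).const_mul (H (‖g‖ ^ 2))
    refine h3.congr_deriv ?_
    field_simp

end Ip

/-- integrability on the half line -/
lemma psb_half {ρ : ℝ → ℝ} {C : ℝ} (hρ : Continuous ρ)
    (hb : ∀ y, 0 ≤ y → |ρ y| ≤ C / (1 + y) ^ 3) : IntegrableOn ρ (Set.Ioi 0) := by
  have hC : 0 ≤ C := by
    have := (abs_nonneg _).trans (hb 0 le_rfl)
    simpa using this
  have h : Integrable (fun y : ℝ => (1 + y ^ 2)⁻¹) := integrable_inv_one_add_sq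
  refine ((h.const_mul C).integrableOn).mono' hρ.aestronglyMeasurable ?_
  refine (ae_restrict_iff' measurableSet_Ioi).2 (Filter.Eventually.of_forall fun y hy => ?_)
  have hy' : 0 < y := hy
  refine (hb y hy'.le).trans ?_
  rw [div_eq_mul_inv]
  refine mul_le_mul_of_nonneg_left (inv_anti₀ (by positivity) ?_) hC
  nlinarith [mul_pos hy' hy', mul_pos (mul_pos hy' hy') hy']

/-- integration by parts -/
lemma psb_parts {ρ : ℝ → ℝ} {C : ℝ} (hρ : ContDiff ℝ 1 ρ)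
    (hb : ∀ y, 0 ≤ y → |ρ y| ≤ C / (1 + y) ^ 3)
    (hb' : ∀ y, 0 ≤ y → |y * deriv ρ y| ≤ C / (1 + y) ^ 3) :
    ∫ y in Set.Ioi (0 : ℝ), y * deriv ρ y = - ∫ y in Set.Ioi (0 : ℝ), ρ y := by
  have hdc : Continuous (deriv ρ) := hρ.continuous_deriv (by simp)
  have hρ2 : Continuous (fun y => y * deriv ρ y) := continuous_id.mul hdc
  have i1 := psb_half hρ.continuous hb
  have i2 := psb_half hρ2 hb'
  have hC : 0 ≤ C := by
    have := (abs_nonneg _).trans (hb 0 le_rfl)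
    simpa using this
  have key := integral_Ioi_of_hasDerivAt_of_tendsto' (a := (0 : ℝ)) (m := (0 : ℝ))
    (f := fun y => y * ρ y) (f' := fun y => ρ y + y * deriv ρ y) ?_ (i1.add i2) ?_
  · rw [integral_add i1 i2] at key
    simp only [zero_mul, sub_zero] at key
    linarith
  · intro x _
    have h1 : HasDerivAt ρ (deriv ρ x) x := ((hρ.differentiable (by simp)) _).hasDerivAt
    have := (hasDerivAt_id x).mul h1
    refine this.congr_deriv ?_
    simp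
  · refine squeeze_zero_norm' (a := fun y : ℝ => C * y⁻¹) ?_ ?_
    · filter_upwards [eventually_gt_atTop (0 : ℝ)] with y hy
      rw [norm_mul, Real.norm_of_nonneg hy.le, Real.norm_eq_abs]
      calc y * |ρ y| ≤ y * (C / (1 + y) ^ 3) := by gcongr; exact hb y hy.le
        _ ≤ y * (C / y ^ 2) := by
          gcongr
          nlinarith [mul_pos hy hy, mul_pos (mul_pos hy hy) hy]
        _ = C * y⁻¹ := by field_simp
    · simpa using (tendsto_inv_atTop_zero (𝕜 := ℝ)).const_mul C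

theorem pf_PSB (h1 : T_THB) (h2 : T_THI) : T_PSB := by
  intro K _ _ _ W H hW hW1 hH
  obtain ⟨hsm, -, hA⟩ := h1 K W hW
  obtain ⟨C, hC, hCb⟩ := hA 3
  obtain ⟨hint, hval⟩ := h2 K W hW
  have hwu : 0 < wu K := (Pool.Agent.H46.HH.pf_NRM K).2.1
  have hhc : 0 < hc K := by
    unfold hc
    exact_mod_cast (NumberField.classNumber_pos K)
  obtain ⟨κ, hκ⟩ : ∃ κ : ℝ, κ = 2 / Real.pi * (wu K / (hc K * W1 W)) := ⟨_, rfl⟩
  have hκ0 : 0 < κ := by rw [hκ]; positivity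
  set ρ : ℝ → ℝ := Rr K W with hρ
  set ρ2 : ℝ → ℝ := fun y => y * deriv ρ y with hρ2
  have hb : ∀ y, 0 ≤ y → |ρ y| ≤ C / (1 + y) ^ 3 := fun y hy => (hCb y hy).1
  have hb2 : ∀ y, 0 ≤ y → |ρ2 y| ≤ C / (1 + y) ^ 3 := fun y hy => (hCb y hy).2
  have hc2 : Continuous ρ2 := continuous_id.mul (hsm.continuous_deriv (by simp))
  obtain ⟨B₁, hB₁, hI₁⟩ := psb_Ip hH hsm.continuous hb
  obtain ⟨B₂, hB₂, hI₂⟩ := psb_Ip hH hc2 hb2
  have hps : ∀ x, Pool.Agent.H33.HH.ps K W H x = 1 + κ * (x * Ip H ρ x) := by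
    intro x
    unfold Pool.Agent.H33.HH.ps
    show 1 + 2 * x / Real.pi * (wu K / (hc K * W1 W)) * Ip H ρ x = _
    rw [hκ]; ring
  have hpar : ∫ y in Set.Ioi (0 : ℝ), ρ2 y = - ∫ y in Set.Ioi (0 : ℝ), ρ y :=
    psb_parts hsm hb hb2
  refine ⟨fun x => κ * (Ip H ρ x + Ip H ρ2 x), κ * (B₁ + B₂), by positivity, ?_, ?_, ?_, ?_⟩
  · intro t ht
    have hd := psb_deriv hH hsm hb hb2 ht
    have h3 := (((hasDerivAt_id t).mul hd).const_mul κ).const_add 1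
    have e : Pool.Agent.H33.HH.ps K W H = fun x => 1 + κ * (x * Ip H ρ x) := funext fun x => hps x
    rw [e]
    have ht' : t ≠ 0 := (Set.mem_Ioi.1 ht).ne'
    refine HasDerivAt.congr_deriv (f' := _) h3 ?_
    simp only [id_eq, one_mul]
    rw [← mul_assoc t, mul_inv_cancel₀ ht', one_mul]
  · intro x hx
    exact (continuousAt_const.mul ((psb_cont hH hsm.continuous hb hx).add
      (psb_cont hH hc2 hb2 hx))).continuousWithinAt
  · intro t ht ht1
    set s := Real.sqrt t with hs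
    have hsp : 0 < s := Real.sqrt_pos.2 ht
    have hss : s ^ 2 = t := Real.sq_sqrt ht.le
    have hrp : (t / 1) ^ (1 / 2 : ℝ) = s := by rw [div_one, ← Real.sqrt_eq_rpow]
    rw [hrp, hps]
    have a1 := (hI₁ s hsp).1
    have a2 := (hI₂ s hsp).1
    rw [hss] at a1 a2
    constructor
    · have : 1 + κ * (t * Ip H ρ t) - 1 = κ * (t * Ip H ρ t) := by ring
      rw [this, abs_mul, abs_mul, abs_of_pos hκ0, abs_of_pos ht]
      calc κ * (t * |Ip H ρ t|) ≤ κ * (t * (B₁ * s⁻¹)) := by gcongr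
        _ = κ * B₁ * s := by rw [← hss]; field_simp
        _ ≤ κ * (B₁ + B₂) * s := by gcongr; linarith
    · rw [abs_mul, abs_of_pos hκ0]
      calc κ * |Ip H ρ t + Ip H ρ2 t| ≤ κ * (B₁ * s⁻¹ + B₂ * s⁻¹) := by
            gcongr
            exact (abs_add_le _ _).trans (add_le_add a1 a2)
        _ = κ * (B₁ + B₂) / t * s := by rw [← hss]; field_simp
  · intro t ht1
    have ht : 0 < t := by linarith
    set s := Real.sqrt t with hs
    have hsp : 0 < s := Real.sqrt_pos.2 ht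
    have hss : s ^ 2 = t := Real.sq_sqrt ht.le
    have hrp : (t / 1) ^ (-(1 / 2) : ℝ) = s⁻¹ := by
      rw [div_one, Real.rpow_neg ht.le, ← Real.sqrt_eq_rpow]
    rw [hrp, hps]
    have a1 := (hI₁ s hsp).2
    have a2 := (hI₂ s hsp).2
    rw [hpar] at a2
    rw [hval, hss] at a1 a2
    set N : ℝ := hc K / wu K * W1 W with hN
    have hκN : κ * (1 / 2 * (Real.pi * N)) = 1 := by
      rw [hκ, hN]
      have := Real.pi_pos
      field_simp
    constructor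
    · have e : 1 + κ * (t * Ip H ρ t) =
          κ * t * (Ip H ρ t - 1 / 2 * (Real.pi / t * -N)) := by
        have : κ * t * (1 / 2 * (Real.pi / t * -N)) = - (κ * (1 / 2 * (Real.pi * N))) := by
          field_simp
        rw [mul_sub, this, hκN]
        ring
      rw [e, abs_mul, abs_of_pos (mul_pos hκ0 ht)]
      calc κ * t * |Ip H ρ t - 1 / 2 * (Real.pi / t * -N)| ≤ κ * t * (B₁ * (s ^ 3)⁻¹) := by
            gcongr
        _ = κ * B₁ * s⁻¹ := by rw [← hss]; field_simp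
        _ ≤ κ * (B₁ + B₂) * s⁻¹ := by gcongr; linarith
    · have e : Ip H ρ t + Ip H ρ2 t = (Ip H ρ t - 1 / 2 * (Real.pi / t * -N)) +
          (Ip H ρ2 t - 1 / 2 * (Real.pi / t * -(-N))) := by ring
      rw [abs_mul, abs_of_pos hκ0, e]
      calc κ * |(Ip H ρ t - 1 / 2 * (Real.pi / t * -N)) +
          (Ip H ρ2 t - 1 / 2 * (Real.pi / t * -(-N)))| ≤
            κ * (B₁ * (s ^ 3)⁻¹ + B₂ * (s ^ 3)⁻¹) := by
            gcongr
            exact (abs_add_le _ _).trans (add_le_add a1 a2)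
        _ = κ * (B₁ + B₂) / t * s⁻¹ := by rw [← hss]; field_simp

end Pool.Agent.H4.HH
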