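import Pool.Agent.H33.HH.TC

/-!
# GFS: uniform bounds of the derivatives of the function of the sum over `γ`
-/

set_option autoImplicit false

open Complex Filter Topology MeasureTheory
open scoped ContDiff

namespace Pool.Agent.H4.HH

open Pool.Agent.H33.HH

/-- the weight is smooth -/
lemma gfs_w1 {W : ℝ → ℝ} (h : IsW W) : ContDiff ℝ ∞ (w1 W) := by
  unfold w1
  exact contDiff_id.mul h.smooth

lemma gfs_nsq {E : Type*} [NormedAddCommGroup E] [NormedSpace ℝ E] {f : E → ℂ}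
    (hf : ContDiff ℝ ∞ f) : ContDiff ℝ ∞ (fun z => ‖f z‖ ^ 2) := hf.norm_sq ℝ

/-- smoothness in all variables -/
lemma gfs_F1 {W G H : ℝ → ℝ} (hW : IsW W) (hG : IsG G) (hH : IsH H) :
    ContDiff ℝ ∞ (fun p : (ℝ × ℝ) × ℂ => H (‖1 + (p.1.1 : ℂ) * p.2‖ ^ 2) *
      G (‖1 + (p.1.1 : ℂ) * p.2‖ ^ 2 * p.1.2) * w1 W (‖p.2‖ ^ 2)) := by
  have h1 : ContDiff ℝ ∞ (fun p : (ℝ × ℝ) × ℂ => (p.1.1 : ℂ)) :=
    Complex.ofRealCLM.contDiff.comp (contDiff_fst.comp contDiff_fst)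
  have h2 : ContDiff ℝ ∞ (fun p : (ℝ × ℝ) × ℂ => 1 + (p.1.1 : ℂ) * p.2) :=
    contDiff_const.add (h1.mul contDiff_snd)
  have h3 := gfs_nsq h2
  have h4 : ContDiff ℝ ∞ (fun p : (ℝ × ℝ) × ℂ => p.1.2) := contDiff_snd.comp contDiff_fst
  have h5 : ContDiff ℝ ∞ (fun p : (ℝ × ℝ) × ℂ => ‖p.2‖ ^ 2) := gfs_nsq contDiff_snd
  exact ((hH.smooth.comp h3).mul (hG.smooth.comp (h3.mul h4))).mul ((gfs_w1 hW).comp h5)

lemma gfs_F2 {W G H : ℝ → ℝ} (hW : IsW W) (hG : IsG G) (hH : IsH H) (c : ℝ) :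
    ContDiff ℝ ∞ (fun p : (ℝ × ℝ) × ℂ => c * H (c ^ 2 * ‖p.2 + (p.1.1 : ℂ)‖ ^ 2) *
      G (‖p.2 + (p.1.1 : ℂ)‖ ^ 2 * p.1.2) * w1 W (‖p.2‖ ^ 2)) := by
  have h1 : ContDiff ℝ ∞ (fun p : (ℝ × ℝ) × ℂ => (p.1.1 : ℂ)) :=
    Complex.ofRealCLM.contDiff.comp (contDiff_fst.comp contDiff_fst)
  have h2 : ContDiff ℝ ∞ (fun p : (ℝ × ℝ) × ℂ => p.2 + (p.1.1 : ℂ)) :=
    contDiff_snd.add h1
  have h3 := gfs_nsq h2
  have h4 : ContDiff ℝ ∞ (fun p : (ℝ × ℝ) × ℂ => p.1.2) := contDiff_snd.comp contDiff_fst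
  have h5 : ContDiff ℝ ∞ (fun p : (ℝ × ℝ) × ℂ => ‖p.2‖ ^ 2) := gfs_nsq contDiff_snd
  exact ((contDiff_const.mul (hH.smooth.comp (contDiff_const.mul h3))).mul
    (hG.smooth.comp (h3.mul h4))).mul ((gfs_w1 hW).comp h5)

lemma gfs_smooth {W G H : ℝ → ℝ} (hW : IsW W) (hG : IsG G) (hH : IsH H) (R M : ℝ) :
    ContDiff ℝ ∞ (Fz W G H R M) :=
  (gfs_F1 hW hG hH).comp ((contDiff_const (c := (R, M))).prodMk contDiff_id)

lemma gfs_w1_high {W : ℝ → ℝ} (hW : IsW W) {u : ℝ} (hu : 1 ≤ u) : w1 W u = 0 := by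
  unfold w1; rw [hW.high u hu, mul_zero]

lemma gfs_sq_of {z : ℂ} (hz : 1 < ‖z‖) : 1 ≤ ‖z‖ ^ 2 := by nlinarith

/-- the value of `H` at large squares -/
lemma gfs_Hval {H : ℝ → ℝ} (hH : IsH H) {x : ℝ} (hx : 0 < x) (h2 : 2 ≤ x ^ 2) :
    H (x ^ 2) = x⁻¹ := by
  rw [hH.high _ h2, ← Real.rpow_natCast, ← Real.rpow_mul hx.le]
  norm_num
  rw [Real.rpow_neg_one]

theorem pf_GFS (h : T_CPM) : T_GFS := by
  intro W G H hW hG hH k
  obtain ⟨δ₀, hδ₀, hlow₀⟩ := hW.low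
  obtain ⟨δ, hδ, hδ1, hlow⟩ : ∃ δ : ℝ, 0 < δ ∧ δ < 1 ∧ ∀ u, u ≤ δ → W u = 0 :=
    ⟨min δ₀ (1 / 2), lt_min hδ₀ (by norm_num), lt_of_le_of_lt (min_le_right _ _) (by norm_num),
      fun u hu => hlow₀ u (hu.trans (min_le_left _ _))⟩
  have hw0 : ∀ u, u ≤ δ → w1 W u = 0 := fun u hu => by unfold w1; rw [hlow u hu, mul_zero]
  set q : ℝ := Real.sqrt δ with hqdef
  have hq : 0 < q := Real.sqrt_pos.2 hδ
  have hqq : q ^ 2 = δ := Real.sq_sqrt hδ.le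
  have hq1 : q < 1 := by nlinarith
  set c : ℝ := Real.sqrt (9 / (2 * δ)) with hcdef
  have hc : 0 < c := Real.sqrt_pos.2 (by positivity)
  have hcc : c ^ 2 = 9 / (2 * δ) := Real.sq_sqrt (by positivity)
  -- the two compact families
  obtain ⟨C₁, hC₁, hb₁⟩ := h _ (Set.Icc (0 : ℝ) (3 / q) ×ˢ Set.Icc (0 : ℝ) 6) 1
    (gfs_F1 hW hG hH) (isCompact_Icc.prod isCompact_Icc)
    (fun p _ z hz => by
      show _ * w1 W (‖z‖ ^ 2) = 0
      rw [gfs_w1_high hW (gfs_sq_of hz), mul_zero]) k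
  obtain ⟨C₂, hC₂, hb₂⟩ := h _ (Set.Icc (0 : ℝ) (q / 3) ×ˢ Set.Icc (0 : ℝ) (27 / (4 * δ))) 1
    (gfs_F2 hW hG hH c) (isCompact_Icc.prod isCompact_Icc)
    (fun p _ z hz => by
      show _ * w1 W (‖z‖ ^ 2) = 0
      rw [gfs_w1_high hW (gfs_sq_of hz), mul_zero]) k
  refine ⟨max C₁ C₂, le_max_of_le_left hC₁, fun R M hR hM => ⟨gfs_smooth hW hG hH R M, ?_, ?_, ?_⟩⟩
  · intro z hz
    unfold Fz
    rw [gfs_w1_high hW (gfs_sq_of hz), mul_zero]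
  · have h1 : Tendsto (fun z : ℂ => ‖z‖ ^ 2) (𝓝 0) (𝓝 0) := by
      have : Continuous (fun z : ℂ => ‖z‖ ^ 2) := continuous_norm.pow 2
      simpa using this.tendsto 0
    filter_upwards [h1.eventually (gt_mem_nhds hδ)] with z hz
    unfold Fz
    rw [hw0 _ hz.le, mul_zero]
  intro z
  have hzero : (∀ z, Fz W G H R M z = 0) → ‖iteratedFDeriv ℝ k (Fz W G H R M) z‖ ≤ max C₁ C₂ := by
    intro h0
    have : Fz W G H R M = 0 := funext h0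
    rw [this]
    have : iteratedFDeriv ℝ k (0 : ℂ → ℝ) = 0 := by
      exact iteratedFDeriv_zero_fun
    rw [this]
    simpa using le_max_of_le_left hC₁
  rcases le_or_gt R (3 / q) with hR0 | hR0
  · rcases le_or_gt 6 M with h6 | h6
    · apply hzero
      intro z
      unfold Fz
      rcases le_or_gt (‖1 + (R : ℂ) * z‖ ^ 2) (1 / 2) with hv | hv
      · rw [hH.low _ hv, zero_mul, zero_mul]
      · rw [hG.high _ (by nlinarith), mul_zero, zero_mul]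
    · exact (hb₁ (R, M) ⟨⟨hR.le, hR0⟩, ⟨hM.le, h6.le⟩⟩ z).trans (le_max_left _ _)
  · -- large `R`
    have hRq : 3 < R * q := by rwa [div_lt_iff₀ hq] at hR0
    have hR3 : 3 < R := by nlinarith
    have hs : R⁻¹ ≤ q / 3 := by
      rw [inv_le_iff_one_le_mul₀ hR]; nlinarith
    -- on the support
    have hsup : ∀ z : ℂ, δ < ‖z‖ ^ 2 → 2 * q / 3 ≤ ‖z + ((R⁻¹ : ℝ) : ℂ)‖ ∧
        ‖1 + (R : ℂ) * z‖ = R * ‖z + ((R⁻¹ : ℝ) : ℂ)‖ := by
      intro z hz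
      have hqz : q < ‖z‖ := by
        have := norm_nonneg z
        nlinarith
      constructor
      · have h1 := norm_sub_norm_le z (-((R⁻¹ : ℝ) : ℂ))
        rw [norm_neg, sub_neg_eq_add] at h1
        have h2 : ‖((R⁻¹ : ℝ) : ℂ)‖ = R⁻¹ := by
          rw [Complex.norm_real, Real.norm_of_nonneg (inv_nonneg.2 hR.le)]
        rw [h2] at h1
        linarith
      · have h1 : 1 + (R : ℂ) * z = (R : ℂ) * (z + ((R⁻¹ : ℝ) : ℂ)) := by
          have : (R : ℂ) ≠ 0 := by exact_mod_cast hR.ne'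
          push_cast
          field_simp
          ring
        rw [h1, norm_mul, Complex.norm_real, Real.norm_of_nonneg hR.le]
    have hkey : ∀ z : ℂ, Fz W G H R M z = R⁻¹ * (c * H (c ^ 2 * ‖z + ((R⁻¹ : ℝ) : ℂ)‖ ^ 2) *
        G (‖z + ((R⁻¹ : ℝ) : ℂ)‖ ^ 2 * (M * R ^ 2)) * w1 W (‖z‖ ^ 2)) := by
      intro z
      unfold Fz
      rcases le_or_gt (‖z‖ ^ 2) δ with hz | hz
      · rw [hw0 _ hz, mul_zero, mul_zero, mul_zero]
      · obtain ⟨h1, h2⟩ := hsup z hz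
        set v := ‖z + ((R⁻¹ : ℝ) : ℂ)‖ with hv
        have hvp : 0 < v := by linarith [div_pos (mul_pos two_pos hq) three_pos]
        have hv2 : 4 * δ / 9 ≤ v ^ 2 := by
          have : (2 * q / 3) ^ 2 ≤ v ^ 2 := pow_le_pow_left₀ (by positivity) h1 2
          nlinarith
        have hRv : 2 ≤ (R * v) ^ 2 := by
          have : 2 ≤ R * v := by nlinarith
          nlinarith
        have hcv : 2 ≤ (c * v) ^ 2 := by
          rw [mul_pow, hcc]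
          calc (2 : ℝ) = 9 / (2 * δ) * (4 * δ / 9) := by field_simp; norm_num
            _ ≤ _ := by gcongr
        have e1 : H ((R * v) ^ 2) = (R * v)⁻¹ := gfs_Hval hH (mul_pos hR hvp) hRv
        have e2 : H (c ^ 2 * v ^ 2) = (c * v)⁻¹ := by
          rw [← mul_pow]; exact gfs_Hval hH (mul_pos hc hvp) hcv
        have e3 : (R * v) ^ 2 * M = v ^ 2 * (M * R ^ 2) := by ring
        rw [h2, e1, e2, e3]
        have : (R * v)⁻¹ = R⁻¹ * (c * (c * v)⁻¹) := by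
          field_simp
        rw [this]
        ring
    rcases le_or_gt (27 / (4 * δ)) (M * R ^ 2) with hM' | hM'
    · apply hzero
      intro z
      rw [hkey]
      rcases le_or_gt (‖z‖ ^ 2) δ with hz | hz
      · rw [hw0 _ hz, mul_zero, mul_zero]
      · obtain ⟨h1, -⟩ := hsup z hz
        have hv2 : 4 * δ / 9 ≤ ‖z + ((R⁻¹ : ℝ) : ℂ)‖ ^ 2 := by
          have : (2 * q / 3) ^ 2 ≤ ‖z + ((R⁻¹ : ℝ) : ℂ)‖ ^ 2 :=
            pow_le_pow_left₀ (by positivity) h1 2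
          nlinarith
        have h3 : 3 ≤ ‖z + ((R⁻¹ : ℝ) : ℂ)‖ ^ 2 * (M * R ^ 2) := by
          calc (3 : ℝ) = (4 * δ / 9) * (27 / (4 * δ)) := by field_simp; norm_num
            _ ≤ _ := by gcongr
        rw [hG.high _ h3, mul_zero, zero_mul, mul_zero]
    · have hfun : Fz W G H R M = R⁻¹ • (fun z : ℂ => c * H (c ^ 2 * ‖z + ((R⁻¹ : ℝ) : ℂ)‖ ^ 2) *
          G (‖z + ((R⁻¹ : ℝ) : ℂ)‖ ^ 2 * (M * R ^ 2)) * w1 W (‖z‖ ^ 2)) := by
        funext z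
        rw [hkey z]
        rfl
      have hsm : ContDiff ℝ ∞ (fun z : ℂ => c * H (c ^ 2 * ‖z + ((R⁻¹ : ℝ) : ℂ)‖ ^ 2) *
          G (‖z + ((R⁻¹ : ℝ) : ℂ)‖ ^ 2 * (M * R ^ 2)) * w1 W (‖z‖ ^ 2)) :=
        (gfs_F2 hW hG hH c).comp
          ((contDiff_const (c := (R⁻¹, M * R ^ 2))).prodMk contDiff_id)
      have hb := hb₂ (R⁻¹, M * R ^ 2) ⟨⟨inv_nonneg.2 hR.le, hs⟩, ⟨by positivity, hM'.le⟩⟩ z
      rw [hfun, iteratedFDeriv_const_smul_apply ((hsm.of_le (mod_cast le_top)).contDiffAt),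
        norm_smul, Real.norm_of_nonneg (inv_nonneg.2 hR.le)]
      refine le_trans ?_ (le_max_right _ _)
      refine le_trans (mul_le_of_le_one_left (norm_nonneg _) ?_) hb
      exact inv_le_one_of_one_le₀ (by linarith)

end Pool.Agent.H4.HH
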